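import Pool.Agent.W567.ZonIter
import Pool.Agent.W567.Spencer2

/-!
# Vector balancing constant of zonotopes

`vb(K, K) ≤ C √d` for every zonotope `K` in `ℝ^d`.
-/

set_option autoImplicit false

open Finset
open scoped RealInnerProductSpace

namespace Pool.Agent.N556.VB

open Pool.Agent.H902R3.ZA Pool.Agent.H172R2.ZS

/-- the support function of a zonotope -/
noncomputable def hh {d m : ℕ} (v : Fin m → E d) (y : E d) : ℝ := ∑ j, |⟪v j, y⟫|

theorem hh_nonneg {d m : ℕ} (v : Fin m → E d) (y : E d) : 0 ≤ hh v y :=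
  Finset.sum_nonneg fun _ _ => abs_nonneg _

theorem le_hh {d m : ℕ} (v : Fin m → E d) {u : E d} (hu : u ∈ Zon v) (y : E d) :
    |⟪u, y⟫| ≤ hh v y := by
  obtain ⟨t, ht, rfl⟩ := hu
  rw [sum_inner]
  refine (Finset.abs_sum_le_sum_abs _ _).trans (Finset.sum_le_sum fun j _ => ?_)
  rw [inner_smul_left, abs_mul]
  have h1 : |(starRingEnd ℝ) (t j)| ≤ 1 := by
    simp only [conj_trivial]
    exact abs_le.2 (ht j)
  calc |(starRingEnd ℝ) (t j)| * |⟪v j, y⟫| ≤ 1 * |⟪v j, y⟫| := by gcongr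
    _ = |⟪v j, y⟫| := one_mul _

theorem mem_of_le {d m : ℕ} (v : Fin m → E d) (u : E d) (s : ℝ) (hs : 0 ≤ s)
    (h : ∀ y, |⟪u, y⟫| ≤ s * hh v y) : ∃ z ∈ Zon v, u = s • z := by
  refine ZSUP_ok d m 1 v (fun _ => u) s hs (fun x => ?_) u ⟨fun _ => 1, fun _ => by simp, by simp⟩
  simpa [hh] using h x

/-- balancing in a zonotope with few segments -/
theorem few {C0 : ℝ} (hC0 : 19 ≤ C0)
    (hcol : ∀ (m : ℕ) (J : Type) [Fintype J] [DecidableEq J]
      (f : J → Fin m → ℝ), Fintype.card J ≤ m → (∀ g i, |f g i| ≤ 1) →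
      ∃ ε : J → ℝ, (∀ g, ε g = 1 ∨ ε g = -1) ∧ ∀ i, |∑ g, ε g * f g i| ≤ C0 * √m)
    {d M n : ℕ} (v : Fin M → E d) (z : Fin n → E d) (hz : ∀ i, z i ∈ Zon v) :
    ∃ ε : Fin n → ℝ, (∀ i, ε i = 1 ∨ ε i = -1) ∧
      ∀ y, |⟪∑ i, ε i • z i, y⟫| ≤ (2 * (C0 * √M) + 1) * hh v y := by
  choose t ht hzt using hz
  obtain ⟨x, hx1, hx0, hxc⟩ := Pool.Agent.W567.Spencer.few_fractional M n t
  obtain ⟨ε, hε, hb⟩ := Pool.Agent.W567.Spencer.lindisc M (C0 * √(M : ℝ))
    (fun J _ _ f hJ hf => hcol M J f hJ hf) (by positivity) (Fin n) t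
    (fun g i => abs_le.2 (ht g i)) x hx1 hxc
  refine ⟨ε, hε, fun y => ?_⟩
  have e1 : ∑ i, ε i • z i = ∑ k, (∑ i, (ε i - x i) * t i k) • v k := by
    have e2 : ∀ k, ∑ i, (ε i - x i) * t i k = ∑ i, ε i * t i k := by
      intro k
      have h0 := congrFun hx0 k
      simp only [Finset.sum_apply, Pi.smul_apply, smul_eq_mul, Pi.zero_apply] at h0
      simp only [sub_mul, Finset.sum_sub_distrib, h0, sub_zero]
    simp only [e2]
    have e3 : ∀ i, ε i • z i = ∑ k, (ε i * t i k) • v k := by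
      intro i
      rw [hzt i, Finset.smul_sum]
      exact Finset.sum_congr rfl fun k _ => by rw [smul_smul]
    simp only [e3]
    rw [Finset.sum_comm]
    exact Finset.sum_congr rfl fun k _ => by rw [Finset.sum_smul]
  rw [e1, sum_inner]
  refine (Finset.abs_sum_le_sum_abs _ _).trans ?_
  unfold hh
  rw [Finset.mul_sum]
  refine Finset.sum_le_sum fun k _ => ?_
  rw [inner_smul_left, abs_mul]
  have h1 := hb k
  simp only [conj_trivial]
  gcongr

/-- the perturbed system -/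
noncomputable def pert {d m : ℕ} (v : Fin m → E d) (δ : ℝ) : Fin (m + d) → E d :=
  Fin.append v (fun i => δ • EuclideanSpace.single i (1 : ℝ))

theorem hh_pert {d m : ℕ} (v : Fin m → E d) (δ : ℝ) (hδ : 0 ≤ δ) (y : E d) :
    hh (pert v δ) y = hh v y + δ * ∑ i, |y i| := by
  unfold hh pert
  rw [Fin.sum_univ_add]
  congr 1
  · exact Finset.sum_congr rfl fun j _ => by rw [Fin.append_left]
  · rw [Finset.mul_sum]
    refine Finset.sum_congr rfl fun i _ => ?_
    rw [Fin.append_right, inner_smul_left, EuclideanSpace.inner_single_left, abs_mul]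
    simp [abs_of_nonneg hδ]

/-- approximate version -/
theorem approx : ∃ C : ℝ, 0 < C ∧ ∀ (d m : ℕ) (v : Fin m → E d) (n : ℕ) (u : Fin n → E d), 0 < d →
    (∀ i, u i ∈ Zon v) → ∀ δ : ℝ, 0 < δ → ∃ ε : Fin n → ℝ, (∀ i, ε i = 1 ∨ ε i = -1) ∧
      ∀ y, |⟪∑ i, ε i • u i, y⟫| ≤ (C * √d) * (hh v y + δ * ∑ i, |y i|) := by
  obtain ⟨C0, hC0, hcol⟩ := Pool.Agent.W567.Spencer.full_col'
  obtain ⟨C1, hC1, hit⟩ := Pool.Agent.W567.ZonIter.iter
  refine ⟨3 * (2 * (C0 * √(4 * C1)) + 1), by positivity, ?_⟩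
  intro d m v n u hd hu δ hδ
  obtain ⟨N', v', hN', hv'⟩ := hit d (m + d) (pert v δ) hd (by
    intro x hx
    ext i
    have h1 := hx (Fin.natAdd m i)
    unfold pert at h1
    rw [Fin.append_right, inner_smul_left, EuclideanSpace.inner_single_left] at h1
    simp only [conj_trivial, one_mul, mul_eq_zero] at h1
    rcases h1 with h1 | h1
    · exact absurd h1 hδ.ne'
    · simpa using h1) (1 / 2) (by norm_num) (by norm_num)
  have hlow : ∀ y, hh (pert v δ) y ≤ 2 * hh v' y := by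
    intro y
    have := (abs_le.1 (hv' y)).1
    unfold hh
    linarith
  have hup : ∀ y, hh v' y ≤ 3 / 2 * hh (pert v δ) y := by
    intro y
    have := (abs_le.1 (hv' y)).2
    unfold hh
    linarith
  have hz : ∀ i, ∃ z ∈ Zon v', u i = (2 : ℝ) • z := by
    intro i
    refine mem_of_le v' (u i) 2 (by norm_num) fun y => ?_
    refine (le_hh v (hu i) y).trans (le_trans ?_ (hlow y))
    rw [hh_pert v δ hδ.le]
    have : 0 ≤ δ * ∑ i, |y i| := by positivity
    linarith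
  choose z hz hzu using hz
  obtain ⟨ε, hε, hb⟩ := few hC0 hcol v' z hz
  refine ⟨ε, hε, fun y => ?_⟩
  have e1 : ∑ i, ε i • u i = (2 : ℝ) • ∑ i, ε i • z i := by
    rw [Finset.smul_sum]
    exact Finset.sum_congr rfl fun i _ => by rw [hzu i, smul_comm]
  rw [e1, inner_smul_left, abs_mul]
  have hd1 : (1 : ℝ) ≤ √d := by
    rw [Real.one_le_sqrt]
    exact_mod_cast hd
  have h2 : √(N' : ℝ) ≤ √(4 * C1) * √d := by
    rw [← Real.sqrt_mul (by positivity)]
    apply Real.sqrt_le_sqrt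
    refine hN'.trans (le_of_eq ?_)
    ring
  have h3 : 2 * (C0 * √(N' : ℝ)) + 1 ≤ (2 * (C0 * √(4 * C1)) + 1) * √d := by
    have : C0 * √(N' : ℝ) ≤ C0 * (√(4 * C1) * √d) := by gcongr
    nlinarith
  have h4 : 0 ≤ hh (pert v δ) y := hh_nonneg _ _
  rw [← hh_pert v δ hδ.le]
  have h5 : |(starRingEnd ℝ) (2:ℝ)| = 2 := by simp
  rw [h5]
  calc 2 * |⟪∑ i, ε i • z i, y⟫| ≤ 2 * ((2 * (C0 * √N') + 1) * hh v' y) := by
        gcongr
        exact hb y
    _ ≤ 2 * (((2 * (C0 * √(4 * C1)) + 1) * √d) * (3 / 2 * hh (pert v δ) y)) := by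
        have h6 := hup y
        have h7 : 0 ≤ hh v' y := hh_nonneg _ _
        gcongr
    _ = 3 * (2 * (C0 * √(4 * C1)) + 1) * √d * hh (pert v δ) y := by ring

/-- The vector balancing theorem for zonotopes. -/
theorem main : ∃ C : ℝ, 0 < C ∧ ∀ (d m : ℕ) (v : Fin m → E d) (n : ℕ) (u : Fin n → E d),
    (∀ i, u i ∈ Zon v) → ∃ ε : Fin n → ℝ, (∀ i, ε i = 1 ∨ ε i = -1) ∧
      ∃ z ∈ Zon v, ∑ i, ε i • u i = (C * √d) • z := by
  obtain ⟨C, hC, hap⟩ := approx
  refine ⟨C, hC, fun d m v n u hu => ?_⟩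
  rcases Nat.eq_zero_or_pos d with rfl | hd
  · exact ⟨fun _ => 1, fun _ => Or.inl rfl, 0, ⟨fun _ => 0, fun _ => by simp, by simp⟩,
      Subsingleton.elim _ _⟩
  have hap' := hap d m v n u hd hu
  -- signs as a finite type
  let sgn : (Fin n → Bool) → Fin n → ℝ := fun b i => if b i then 1 else -1
  have hfin : ∀ k : ℕ, ∃ b : Fin n → Bool, ∀ y,
      |⟪∑ i, sgn b i • u i, y⟫| ≤ (C * √d) * (hh v y + 1 / ((k : ℝ) + 1) * ∑ i, |y i|) := by
    intro k
    obtain ⟨ε, hε, hb⟩ := hap' (1 / ((k : ℝ) + 1)) (by positivity)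
    refine ⟨fun i => decide (ε i = 1), fun y => ?_⟩
    have e : (fun i => sgn (fun i => decide (ε i = 1)) i) = ε := by
      funext i
      simp only [sgn, decide_eq_true_eq]
      rcases hε i with h | h
      · rw [if_pos h, h]
      · rw [if_neg, h]
        rw [h]; norm_num
    have e' : ∀ i, sgn (fun i => decide (ε i = 1)) i = ε i := fun i => congrFun e i
    simp only [e']
    exact hb y
  choose b hb using hfin
  obtain ⟨b0, hb0⟩ := Finite.exists_infinite_fiber b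
  have hinf : (b ⁻¹' {b0}).Infinite := Set.infinite_coe_iff.1 hb0
  have key : ∀ y, |⟪∑ i, sgn b0 i • u i, y⟫| ≤ (C * √d) * hh v y := by
    intro y
    set S : ℝ := ∑ i, |y i| with hS
    have hS0 : 0 ≤ S := Finset.sum_nonneg fun _ _ => abs_nonneg _
    refine le_of_forall_pos_le_add fun η hη => ?_
    have hCd : 0 ≤ C * √d := by positivity
    obtain ⟨K, hK⟩ := exists_nat_gt ((C * √d) * S / η)
    obtain ⟨k, hk, hkK⟩ := hinf.exists_gt K
    have h1 := hb k y
    have hk' : b k = b0 := hk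
    rw [hk'] at h1
    refine h1.trans ?_
    rw [mul_add]
    have hk1 : ((K : ℝ)) < k := by exact_mod_cast hkK
    have h2 : (C * √d) * (1 / ((k : ℝ) + 1) * S) ≤ η := by
      rw [div_lt_iff₀ hη] at hK
      have h3 : (C * √d) * S ≤ η * ((k : ℝ) + 1) := by nlinarith
      have h4 : (0:ℝ) < (k : ℝ) + 1 := by positivity
      calc (C * √d) * (1 / ((k : ℝ) + 1) * S) = (C * √d) * S / ((k : ℝ) + 1) := by ring
        _ ≤ η := by rw [div_le_iff₀ h4]; exact h3
    linarith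
  refine ⟨sgn b0, fun i => ?_, ?_⟩
  · simp only [sgn]
    by_cases h : b0 i
    · left; rw [if_pos h]
    · right; rw [if_neg h]
  · exact mem_of_le v _ _ (by positivity) key

end Pool.Agent.N556.VB
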