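import Pool.Agent.Results.MP_2c1b2b_gt.LinearSegments

/-! Limits of zonotopes are convex and symmetric, and the Minkowski sum of segments. -/

set_option autoImplicit false

open scoped Pointwise
open Pool.Agent.Results.MP_2c1b2b_gt.LinearSegments

namespace Pool.Agent.N556.ZonGlue

theorem mem_seg {n : ℕ} (v x : EuclideanSpace ℝ (Fin n)) :
    x ∈ segment ℝ (-v) v ↔ ∃ t : ℝ, t ∈ Set.Icc (-1 : ℝ) 1 ∧ x = t • v := by
  rw [segment_eq_image]
  constructor
  · rintro ⟨θ, hθ, rfl⟩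
    refine ⟨2 * θ - 1, ⟨by linarith [hθ.1], by linarith [hθ.2]⟩, ?_⟩
    simp only [smul_neg, sub_smul, mul_smul, one_smul, two_smul]
    abel
  · rintro ⟨t, ht, rfl⟩
    refine ⟨(t + 1) / 2, ⟨by linarith [ht.1], by linarith [ht.2]⟩, ?_⟩
    simp only [smul_neg]
    rw [← neg_smul, ← add_smul]
    congr 1
    ring

theorem sum_seg {n m : ℕ} (v : Fin m → EuclideanSpace ℝ (Fin n)) :
    ∑ i, segment ℝ (-v i) (v i) = segSum v := by
  ext x
  rw [Set.mem_fintype_sum]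
  constructor
  · rintro ⟨g, hg, rfl⟩
    have h : ∀ i, ∃ t : ℝ, t ∈ Set.Icc (-1 : ℝ) 1 ∧ g i = t • v i := fun i =>
      (mem_seg (v i) (g i)).1 (hg i)
    choose t ht htg using h
    exact ⟨t, ht, Finset.sum_congr rfl fun i _ => htg i⟩
  · rintro ⟨t, ht, rfl⟩
    exact ⟨fun i => t i • v i, fun i => (mem_seg _ _).2 ⟨t i, ht i, rfl⟩, rfl⟩

theorem segSum_bounded {n m : ℕ} (v : Fin m → EuclideanSpace ℝ (Fin n)) :
    Bornology.IsBounded (segSum v) := by
  rw [isBounded_iff_forall_norm_le]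
  refine ⟨∑ i, ‖v i‖, ?_⟩
  rintro x ⟨t, ht, rfl⟩
  refine (norm_sum_le _ _).trans (Finset.sum_le_sum fun i _ => ?_)
  rw [norm_smul]
  have : ‖t i‖ ≤ 1 := by
    rw [Real.norm_eq_abs]; exact abs_le.2 (ht i)
  calc ‖t i‖ * ‖v i‖ ≤ 1 * ‖v i‖ := by gcongr
    _ = ‖v i‖ := one_mul _

theorem segSum_nonempty {n m : ℕ} (v : Fin m → EuclideanSpace ℝ (Fin n)) : (segSum v).Nonempty :=
  ⟨_, fun _ => 0, fun _ => by simp, rfl⟩

theorem segSum_convex {n m : ℕ} (v : Fin m → EuclideanSpace ℝ (Fin n)) : Convex ℝ (segSum v) := by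
  rintro _ ⟨s, hs, rfl⟩ _ ⟨t, ht, rfl⟩ a b ha hb hab
  refine ⟨fun i => a * s i + b * t i, fun i => ?_, ?_⟩
  · exact (convex_Icc (-1 : ℝ) 1) (hs i) (ht i) ha hb hab
  · rw [Finset.smul_sum, Finset.smul_sum, ← Finset.sum_add_distrib]
    exact Finset.sum_congr rfl fun i _ => by rw [add_smul, mul_smul, mul_smul]

theorem segSum_neg {n m : ℕ} (v : Fin m → EuclideanSpace ℝ (Fin n)) :
    ∀ x ∈ segSum v, -x ∈ segSum v := by
  rintro _ ⟨t, ht, rfl⟩
  refine ⟨fun i => - t i, fun i => ⟨by linarith [(ht i).2], by linarith [(ht i).1]⟩, ?_⟩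
  rw [← Finset.sum_neg_distrib]
  exact Finset.sum_congr rfl fun i _ => by rw [neg_smul]

theorem isZonoid {n : ℕ} (K : Set (EuclideanSpace ℝ (Fin n))) (hK : IsCompact K)
    (hi : (interior K).Nonempty)
    (hz : ∀ δ : ℝ, 0 < δ → ∃ m : ℕ, ∃ v : Fin m → EuclideanSpace ℝ (Fin n),
      Metric.hausdorffDist K (∑ i, segment ℝ (-v i) (v i)) < δ) : IsZonoid K := by
  have hne : K.Nonempty := hi.mono interior_subset
  have hfin : ∀ (m : ℕ) (v : Fin m → EuclideanSpace ℝ (Fin n)),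
      Metric.hausdorffEDist K (segSum v) ≠ ⊤ := fun m v =>
    Metric.hausdorffEDist_ne_top_of_nonempty_of_bounded hne (segSum_nonempty v) hK.isBounded
      (segSum_bounded v)
  have hmem : ∀ z : EuclideanSpace ℝ (Fin n), (∀ δ : ℝ, 0 < δ → ∃ y ∈ K, dist z y < δ) → z ∈ K := by
    intro z h
    rw [← hK.isClosed.closure_eq, Metric.mem_closure_iff]
    exact h
  refine ⟨?_, hK, hi, ?_, ?_⟩
  · intro x hx y hy a b ha hb hab
    refine hmem _ fun δ hδ => ?_
    obtain ⟨m, v, hv⟩ := hz (δ / 2) (by positivity)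
    rw [sum_seg] at hv
    obtain ⟨x', hx', hxx⟩ := Metric.exists_dist_lt_of_hausdorffDist_lt hx hv (hfin m v)
    obtain ⟨y', hy', hyy⟩ := Metric.exists_dist_lt_of_hausdorffDist_lt hy hv (hfin m v)
    obtain ⟨z, hz1, hz2⟩ := Metric.exists_dist_lt_of_hausdorffDist_lt'
      (segSum_convex v hx' hy' ha hb hab) hv (hfin m v)
    refine ⟨z, hz1, ?_⟩
    have h1 : dist (a • x + b • y) (a • x' + b • y') ≤ δ / 2 := by
      rw [dist_eq_norm] at hxx hyy ⊢
      have e : a • x + b • y - (a • x' + b • y') = a • (x - x') + b • (y - y') := by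
        rw [smul_sub, smul_sub]; abel
      rw [e]
      refine (norm_add_le _ _).trans ?_
      rw [norm_smul, norm_smul, Real.norm_eq_abs, Real.norm_eq_abs, abs_of_nonneg ha,
        abs_of_nonneg hb]
      calc a * ‖x - x'‖ + b * ‖y - y'‖ ≤ a * (δ / 2) + b * (δ / 2) := by
            gcongr
        _ = δ / 2 := by rw [← add_mul, hab, one_mul]
    rw [dist_comm] at hz2
    calc dist (a • x + b • y) z ≤ dist (a • x + b • y) (a • x' + b • y') +
          dist (a • x' + b • y') z := dist_triangle _ _ _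
      _ < δ / 2 + δ / 2 := add_lt_add_of_le_of_lt h1 hz2
      _ = δ := by ring
  · intro x hx
    refine hmem _ fun δ hδ => ?_
    obtain ⟨m, v, hv⟩ := hz (δ / 2) (by positivity)
    rw [sum_seg] at hv
    obtain ⟨x', hx', hxx⟩ := Metric.exists_dist_lt_of_hausdorffDist_lt hx hv (hfin m v)
    obtain ⟨z, hz1, hz2⟩ := Metric.exists_dist_lt_of_hausdorffDist_lt'
      (segSum_neg v _ hx') hv (hfin m v)
    refine ⟨z, hz1, ?_⟩
    rw [dist_comm] at hz2
    calc dist (-x) z ≤ dist (-x) (-x') + dist (-x') z := dist_triangle _ _ _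
      _ < δ / 2 + δ / 2 := by
          rw [dist_neg_neg]
          exact add_lt_add hxx hz2
      _ = δ := by ring
  · intro δ hδ
    obtain ⟨m, v, hv⟩ := hz δ hδ
    refine ⟨m, segSum v, ⟨0, v, ?_⟩, ?_⟩
    · ext x
      simp
    · rwa [sum_seg] at hv

end Pool.Agent.N556.ZonGlue
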